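import Mathlib

namespace Pool.Agent.Results.MP_47ab97_lc.Separate

/-- `x` is a word over the alphabet `V` (letters are natural numbers). -/
def Over (V : Finset ℕ) (x : List ℕ) : Prop := ∀ a ∈ x, a ∈ V

/-- Internal contextual grammar with selection: alphabet `V`, selection pairs `(S_i, C_i)`,
finite set `ax` of starting words. -/
structure ICG where
  V : Finset ℕ
  pairs : List (Set (List ℕ) × Finset (List ℕ × List ℕ))
  ax : Finset (List ℕ)
  ax_over : ∀ x ∈ ax, Over V x
  sel_over : ∀ p ∈ pairs, ∀ x ∈ p.1, Over V x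
  ctx_over : ∀ p ∈ pairs, ∀ c ∈ p.2, Over V c.1 ∧ Over V c.2

/-- One derivation step. -/
def ICG.Step (G : ICG) (x y : List ℕ) : Prop :=
  ∃ p ∈ G.pairs, ∃ c ∈ p.2, ∃ x1 x2 x3 : List ℕ,
    x2 ∈ p.1 ∧ x = x1 ++ x2 ++ x3 ∧ y = x1 ++ c.1 ++ x2 ++ c.2 ++ x3

/-- The generated language. -/
def ICG.lang (G : ICG) : Set (List ℕ) := {y | ∃ x ∈ G.ax, Relation.ReflTransGen G.Step x y}

/-- `S` is accepted by a complete DFA with input alphabet `V` and at most `n` states. -/
def RegZ (n : ℕ) (V : Finset ℕ) (S : Set (List ℕ)) : Prop :=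
  ∃ (Z : Type) (_ : Fintype Z) (M : DFA {a // a ∈ V} Z), Fintype.card Z ≤ n ∧
    S = {x | ∃ y ∈ M.accepts, x = y.map Subtype.val}

/-- `S` is a regular suffix-closed language over `V`. -/
def Suf (V : Finset ℕ) (S : Set (List ℕ)) : Prop :=
  (∃ n, RegZ n V S) ∧ ∀ x y, Over V x → Over V y → x ++ y ∈ S → y ∈ S

/-- The family `IC(F)`. -/
def IC (F : Finset ℕ → Set (List ℕ) → Prop) : Set (Set (List ℕ)) :=
  {L | ∃ G : ICG, (∀ p ∈ G.pairs, F G.V p.1) ∧ L = G.lang}

/-! ### Automata -/

lemma over_lift {V : Finset ℕ} : ∀ x : List ℕ, Over V x →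
    ∃ y : List {a // a ∈ V}, x = y.map Subtype.val
  | [], _ => ⟨[], rfl⟩
  | a :: x, h => by
    obtain ⟨y, hy⟩ := over_lift x (fun b hb => h b (List.mem_cons_of_mem _ hb))
    exact ⟨⟨a, h a (by simp)⟩ :: y, by simp [hy]⟩

lemma mem_iff {V : Finset ℕ} {Z : Type} (M : DFA {a // a ∈ V} Z) (d : Z → ℕ → Z)
    (hd : ∀ q a, M.step q a = d q a.1) (x : List ℕ) :
    (∃ y ∈ M.accepts, x = y.map Subtype.val) ↔ Over V x ∧ x.foldl d M.start ∈ M.accept := by
  have key : ∀ (y : List {a // a ∈ V}) (q : Z),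
      M.evalFrom q y = (y.map Subtype.val).foldl d q := by
    intro y
    induction y with
    | nil => intro q; rfl
    | cons a y ih =>
      intro q
      have := ih (M.step q a)
      simp only [DFA.evalFrom, List.foldl_cons, List.map_cons] at this ⊢
      rw [this, hd]
  constructor
  · rintro ⟨y, hy, rfl⟩
    refine ⟨?_, ?_⟩
    · intro a ha
      obtain ⟨b, _, rfl⟩ := List.mem_map.1 ha
      exact b.2
    · rw [← key]; exact hy
  · rintro ⟨h1, h2⟩
    obtain ⟨y, rfl⟩ := over_lift x h1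
    refine ⟨y, ?_, rfl⟩
    rw [← key] at h2; exact h2

lemma regZ_of {V : Finset ℕ} {Z : Type} [Fintype Z] (d : Z → ℕ → Z) (s : Z) (F : Set Z)
    (S : Set (List ℕ)) (h : ∀ x, x ∈ S ↔ Over V x ∧ x.foldl d s ∈ F) :
    RegZ (Fintype.card Z) V S := by
  refine ⟨Z, inferInstance, ⟨fun q a => d q a.1, s, F⟩, le_rfl, ?_⟩
  ext x
  rw [h x]
  exact (mem_iff (⟨fun q a => d q a.1, s, F⟩ : DFA {a // a ∈ V} Z) d (fun _ _ => rfl) x).symm

def Pw (P : List ℕ) (q : ℕ) : List ℕ := (List.replicate q P).flatten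

lemma Pw_succ (P : List ℕ) (q : ℕ) : Pw P (q + 1) = P ++ Pw P q := by
  simp [Pw, List.replicate_succ]

lemma pump {n : ℕ} {V : Finset ℕ} {S : Set (List ℕ)} (h : RegZ n V S) (P z : List ℕ)
    (hx : Pw P n ++ z ∈ S) : ∃ t, 0 < t ∧ Pw P (n + t) ++ z ∈ S := by
  classical
  obtain ⟨Z, _, M, hc, rfl⟩ := h
  let d : Z → ℕ → Z := fun q a => if h : a ∈ V then M.step q ⟨a, h⟩ else q
  have hd : ∀ q a, M.step q a = d q a.1 := by
    intro q a; simp [d, a.2]
  have hm := mem_iff M d hd
  simp only [Set.mem_ofPred_eq] at hx ⊢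
  rw [hm] at hx
  obtain ⟨ho, hacc⟩ := hx
  let f : Z → Z := fun q => P.foldl d q
  have hf : ∀ q s, (Pw P q).foldl d s = f^[q] s := by
    intro q
    induction q with
    | zero => intro s; rfl
    | succ q ih => intro s; rw [Pw_succ, List.foldl_append, ih]; rfl
  have hn : 0 < n := lt_of_lt_of_le (Fintype.card_pos_iff.2 ⟨M.start⟩) hc
  have hP : Over V P := by
    obtain ⟨n', rfl⟩ : ∃ n', n = n' + 1 := ⟨n - 1, by omega⟩
    intro a ha
    exact ho a (by rw [Pw_succ]; simp [ha])
  have hPw : ∀ q, Over V (Pw P q) := by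
    intro q
    induction q with
    | zero => intro a ha; simp [Pw] at ha
    | succ q ih =>
      intro a ha
      rw [Pw_succ] at ha
      rcases List.mem_append.1 ha with ha | ha
      · exact hP a ha
      · exact ih a ha
  have main : ∀ q1 q2 : ℕ, q1 < q2 → q2 ≤ n → f^[q1] M.start = f^[q2] M.start →
      ∃ t, 0 < t ∧ (∃ y ∈ M.accepts, Pw P (n + t) ++ z = y.map Subtype.val) := by
    intro q1 q2 h12 h2 he
    refine ⟨q2 - q1, by omega, ?_⟩
    rw [hm]
    refine ⟨?_, ?_⟩
    · intro a ha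
      rcases List.mem_append.1 ha with ha | ha
      · exact hPw _ a ha
      · exact ho a (List.mem_append_right _ ha)
    · rw [List.foldl_append, hf] at hacc ⊢
      have e1 : n + (q2 - q1) = (n - q1) + q2 := by omega
      have e2 : n = (n - q1) + q1 := by omega
      rw [e1, Function.iterate_add_apply, ← he, ← Function.iterate_add_apply, ← e2]
      exact hacc
  obtain ⟨q1, q2, hne, he⟩ := Fintype.exists_ne_map_eq_of_card_lt
    (fun q : Fin (n + 1) => f^[q.1] M.start) (by simp; omega)
  have hne' : q1.1 ≠ q2.1 := fun h => hne (Fin.ext h)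
  rcases lt_or_gt_of_ne hne' with h | h
  · exact main _ _ h (by omega) he
  · exact main _ _ h (by omega) he.symm

/-! ### The grammar: letters `0..3` tied to `4..7`, locks `8 ... 9` -/

def S1 : Set (List ℕ) := {x | ∀ a ∈ x, a < 8}
def S2 (k : ℕ) : Set (List ℕ) := {x | (∀ a ∈ x, a < 8) ∧ x.length ≤ k}

def Gk (k : ℕ) : ICG where
  V := Finset.range 10
  pairs := [(S1, (Finset.range 4).image (fun i => ([i], [4 + i]))), (S2 k, {([8], [9])})]
  ax := {[]}
  ax_over := by intro x hx a ha; simp at hx; simp [hx] at ha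
  sel_over := by
    intro p hp x hx a ha
    simp only [List.mem_cons, List.not_mem_nil, or_false] at hp
    rcases hp with rfl | rfl
    · have := hx a ha; simp; omega
    · have := hx.1 a ha; simp; omega
  ctx_over := by
    intro p hp c hc
    simp only [List.mem_cons, List.not_mem_nil, or_false] at hp
    rcases hp with rfl | rfl
    · simp only [Finset.mem_image, Finset.mem_range] at hc
      obtain ⟨i, hi, rfl⟩ := hc
      constructor <;> intro a ha <;> simp at ha ⊢ <;> omega
    · simp only [Finset.mem_singleton] at hc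
      subst hc
      constructor <;> intro a ha <;> simp at ha ⊢ <;> omega

lemma suf1 : Suf (Finset.range 10) S1 := by
  refine ⟨⟨_, regZ_of (Z := Bool) (fun q a => q && decide (a < 8)) true {true} S1 ?_⟩, ?_⟩
  · have key : ∀ (x : List ℕ) (q : Bool),
        x.foldl (fun q a => q && decide (a < 8)) q = true ↔ q = true ∧ ∀ a ∈ x, a < 8 := by
      intro x
      induction x with
      | nil => intro q; simp
      | cons a x ih => intro q; rw [List.foldl_cons, ih]; simp [and_assoc]
    intro x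
    simp only [Set.mem_singleton_iff, key, S1, Set.mem_ofPred_eq, true_and]
    constructor
    · intro h
      exact ⟨fun a ha => by have := h a ha; simp; omega, h⟩
    · exact fun h => h.2
  · intro x y _ _ h a ha
    exact h a (List.mem_append_right _ ha)

lemma suf2 (k : ℕ) : Suf (Finset.range 10) (S2 k) := by
  let d : Fin (k + 2) → ℕ → Fin (k + 2) := fun q a =>
    ⟨if a < 8 then min (q.1 + 1) (k + 1) else k + 1, by split_ifs <;> omega⟩
  refine ⟨⟨_, regZ_of (Z := Fin (k + 2)) d 0 {q | q.1 ≤ k} (S2 k) ?_⟩, ?_⟩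
  · have key : ∀ (x : List ℕ) (q : Fin (k + 2)),
        (x.foldl d q).1 ≤ k ↔ (∀ a ∈ x, a < 8) ∧ q.1 + x.length ≤ k := by
      intro x
      induction x with
      | nil => intro q; simp
      | cons a x ih =>
        intro q
        rw [List.foldl_cons, ih]
        simp only [d, List.forall_mem_cons, List.length_cons]
        split_ifs with h
        · constructor
          · rintro ⟨h1, h2⟩; exact ⟨⟨h, h1⟩, by omega⟩
          · rintro ⟨⟨_, h1⟩, h2⟩; exact ⟨h1, by omega⟩
        · constructor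
          · rintro ⟨h1, h2⟩; omega
          · rintro ⟨⟨h0, h1⟩, h2⟩; exact absurd h0 h
    intro x
    simp only [Set.mem_ofPred_eq, key, S2, Fin.val_zero, zero_add]
    constructor
    · intro h
      exact ⟨fun a ha => by have := h.1 a ha; simp; omega, h⟩
    · exact fun h => h.2
  · intro x y _ _ h
    refine ⟨fun a ha => h.1 a (List.mem_append_right _ ha), ?_⟩
    have := h.2
    simp only [List.length_append] at this
    omega

lemma closure (G : ICG) {p} (hp : p ∈ G.pairs) {c} (hc : c ∈ p.2) (x1 x2 x3 : List ℕ)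
    (h2 : x2 ∈ p.1) (h : x1 ++ x2 ++ x3 ∈ G.lang) : x1 ++ c.1 ++ x2 ++ c.2 ++ x3 ∈ G.lang := by
  obtain ⟨x, hx, hr⟩ := h
  exact ⟨x, hx, hr.tail ⟨p, hp, c, hc, x1, x2, x3, h2, rfl, rfl⟩⟩

lemma last_step (G : ICG) {y : List ℕ} (hy : y ∈ G.lang) (hn : y ∉ G.ax) :
    ∃ p ∈ G.pairs, ∃ c ∈ p.2, ∃ x1 x2 x3 : List ℕ, x2 ∈ p.1 ∧ x1 ++ x2 ++ x3 ∈ G.lang ∧
      y = x1 ++ c.1 ++ x2 ++ c.2 ++ x3 ∧ c.1 ++ c.2 ≠ [] := by
  obtain ⟨x, hx, hr⟩ := hy
  induction hr with
  | refl => exact absurd hx hn
  | @tail b y hb hs ih =>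
    obtain ⟨p, hp, c, hc, x1, x2, x3, h2, rfl, rfl⟩ := hs
    by_cases he : c.1 ++ c.2 = []
    · obtain ⟨e1, e2⟩ := List.append_eq_nil_iff.1 he
      rw [e1, e2] at hn ⊢
      simp only [List.append_nil] at hn ⊢
      exact ih hn
    · exact ⟨p, hp, c, hc, x1, x2, x3, h2, ⟨x, hx, hb⟩, rfl, he⟩

lemma L_tie (k i : ℕ) (hi : i < 4) (x1 x2 x3 : List ℕ) (h2 : ∀ a ∈ x2, a < 8)
    (h : x1 ++ x2 ++ x3 ∈ (Gk k).lang) : x1 ++ [i] ++ x2 ++ [4 + i] ++ x3 ∈ (Gk k).lang :=
  closure (Gk k) (p := (S1, (Finset.range 4).image (fun i => ([i], [4 + i]))))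
    (by simp [Gk]) (c := ([i], [4 + i]))
    (Finset.mem_image.2 ⟨i, Finset.mem_range.2 hi, rfl⟩) x1 x2 x3 h2 h

lemma L_lock (k : ℕ) (x1 x2 x3 : List ℕ) (h2 : ∀ a ∈ x2, a < 8) (hl : x2.length ≤ k)
    (h : x1 ++ x2 ++ x3 ∈ (Gk k).lang) : x1 ++ [8] ++ x2 ++ [9] ++ x3 ∈ (Gk k).lang :=
  closure (Gk k) (p := (S2 k, {([8], [9])})) (by simp [Gk]) (c := ([8], [9]))
    (by simp) x1 x2 x3 ⟨h2, hl⟩ h

lemma L_ins (k : ℕ) (x y : List ℕ) (h : x ++ y ∈ (Gk k).lang) : ∀ (lb la : List ℕ),
    la.Perm lb → (∀ i ∈ lb, i < 4) → x ++ la ++ lb.map (4 + ·) ++ y ∈ (Gk k).lang := by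
  intro lb
  induction lb with
  | nil => intro la hp _; rw [hp.eq_nil]; simpa using h
  | cons i lb ih =>
    intro la hp hl
    have hi : i ∈ la := hp.symm.subset (by simp)
    obtain ⟨s, t, rfl⟩ := List.append_of_mem hi
    have hp' : (s ++ t).Perm lb := (List.perm_middle.symm.trans hp).cons_inv
    have h1 := ih _ hp' (fun j hj => hl j (List.mem_cons_of_mem _ hj))
    have h2 := L_tie k i (hl i (by simp)) (x ++ s) t (lb.map (4 + ·) ++ y)
      (fun a ha => by
        have := hl a (List.mem_cons_of_mem _ (hp'.subset (List.mem_append_right _ ha))); omega)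
      (by simpa using h1)
    simpa using h2

/-! ### The invariant -/

def mu (x : ℕ) : ℤ := if x < 4 then -1 else if x < 8 then 1 else 0
def eta (x : ℕ) : ℤ := if x = 8 then 1 else if x = 9 then -1 else 0
def H (y : List ℕ) : ℤ := (y.count 8 : ℤ) - y.count 9
def W : ℤ → List ℕ → ℤ
  | _, [] => 0
  | h, x :: z => (if 1 ≤ h then mu x else 0) + W (h + eta x) z

lemma H_cons (x : ℕ) (z : List ℕ) : H (x :: z) = eta x + H z := by
  simp only [H, eta, List.count_cons, beq_iff_eq]
  split_ifs <;> push_cast <;> omega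

lemma W_append (y z : List ℕ) : ∀ h, W h (y ++ z) = W h y + W (h + H y) z := by
  induction y with
  | nil => intro h; simp [W, H]
  | cons x y ih => intro h; simp only [List.cons_append, W, ih, H_cons, add_assoc]

lemma H_append (y z : List ℕ) : H (y ++ z) = H y + H z := by
  simp only [H, List.count_append]; push_cast; ring

lemma small_count {x : List ℕ} (h : ∀ a ∈ x, a < 8) : x.count 8 = 0 ∧ x.count 9 = 0 :=
  ⟨List.count_eq_zero.2 (fun h8 => by have := h 8 h8; omega),
   List.count_eq_zero.2 (fun h8 => by have := h 9 h8; omega)⟩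

lemma H_small {x : List ℕ} (h : ∀ a ∈ x, a < 8) : H x = 0 := by
  simp [H, small_count h]

lemma W_lock {x : List ℕ} (hx : ∀ a ∈ x, a < 8) (h : ℤ) : W (h + 1) x ≤ W h x + x.length := by
  induction x with
  | nil => simp [W]
  | cons a x ih =>
    have h1 := ih (fun b hb => hx b (List.mem_cons_of_mem _ hb))
    have ha := hx a (by simp)
    have e : eta a = 0 := by simp only [eta]; split_ifs <;> omega
    simp only [W, e, add_zero, List.length_cons, mu]
    push_cast
    split_ifs <;> omega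

lemma W_zero {x : List ℕ} (hx : ∀ a ∈ x, a < 8) : W 0 x = 0 := by
  induction x with
  | nil => simp [W]
  | cons a x ih =>
    have h1 := ih (fun b hb => hx b (List.mem_cons_of_mem _ hb))
    have ha := hx a (by simp)
    have e : eta a = 0 := by simp only [eta]; split_ifs <;> omega
    simp [W, e, h1]

lemma W_mono {x : List ℕ} (hx : ∀ a ∈ x, 4 ≤ a) : ∀ h : ℤ, W h x ≤ W (h + 1) x := by
  induction x with
  | nil => simp [W]
  | cons a x ih =>
    intro h
    have h1 := ih (fun b hb => hx b (List.mem_cons_of_mem _ hb)) (h + eta a)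
    have ha := hx a (by simp)
    have e : h + 1 + eta a = h + eta a + 1 := by ring
    simp only [W, e, mu]
    split_ifs <;> omega

lemma L_inv (k : ℕ) {y : List ℕ} (hy : y ∈ (Gk k).lang) :
    (∀ i < 4, y.count i = y.count (4 + i)) ∧ y.count 8 = y.count 9 ∧
      W 0 y ≤ k * (y.count 8 : ℤ) := by
  obtain ⟨x, hx, hr⟩ := hy
  induction hr with
  | refl =>
    have : x = [] := by simpa [Gk] using hx
    subst this; simp [W]
  | @tail b y hb hs ih =>
    obtain ⟨p, hp, c, hc, x1, x2, x3, h2, rfl, rfl⟩ := hs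
    obtain ⟨i1, i2, i3⟩ := ih
    simp only [Gk, List.mem_cons, List.not_mem_nil, or_false] at hp
    rcases hp with rfl | rfl
    · simp only [Finset.mem_image, Finset.mem_range] at hc
      obtain ⟨i, hi, rfl⟩ := hc
      have hH := H_small h2
      have e1 : H [i] = 0 := H_small (by simp; omega)
      have e2 : H [4 + i] = 0 := H_small (by simp; omega)
      have c1 := small_count (x := [i]) (by simp; omega)
      have c2 := small_count (x := [4 + i]) (by simp; omega)
      refine ⟨fun j hj => ?_, ?_, ?_⟩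
      · have := i1 j hj
        simp only [List.count_append, List.count_singleton, beq_iff_eq] at this ⊢
        split_ifs <;> omega
      · simp only [List.count_append, c1, c2] at i2 ⊢; omega
      · simp only [W_append, H_append, hH, e1, e2, add_zero, List.count_append, c1, c2] at i3 ⊢
        have m1 : mu i = -1 := by simp [mu, hi]
        have m2 : mu (4 + i) = 1 := by simp only [mu]; split_ifs <;> omega
        simp only [W, m1, m2]
        split_ifs <;> omega
    · simp only [Finset.mem_singleton] at hc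
      subst hc
      have hH := H_small h2.1
      have e1 : H [8] = 1 := by decide
      have e2 : H [9] = -1 := by decide
      have hl := W_lock h2.1 (0 + H x1)
      have hk : (x2.length : ℤ) ≤ k := by exact_mod_cast h2.2
      refine ⟨fun j hj => ?_, ?_, ?_⟩
      · have := i1 j hj
        simp only [List.count_append, List.count_singleton, beq_iff_eq] at this ⊢
        split_ifs <;> omega
      · simp only [List.count_append, List.count_singleton, beq_iff_eq] at i2 ⊢
        simp; omega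
      · simp only [W_append, H_append, hH, e1, e2, add_zero, List.count_append,
          List.count_singleton] at i3 ⊢
        have m1 : mu 8 = 0 := by decide
        have m2 : mu 9 = 0 := by decide
        have e3 : 0 + (H x1 + 1 + -1) = 0 + H x1 := by ring
        have e4 : 0 + (H x1 + 1) = 0 + H x1 + 1 := by ring
        simp only [W, m1, m2, e3, e4, ite_self]
        simp only [beq_iff_eq] at i3 ⊢
        push_cast at i3 ⊢
        simp only [mul_add] at i3 ⊢
        linarith

/-! ### The test word -/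

def T : ℕ → ℕ → List ℕ
  | _, 0 => []
  | r, L + 1 => (r % 4) :: T (r + 1) L

def R (r L : ℕ) : List ℕ := (T r L).map (4 + ·)

lemma T_lt : ∀ (L r : ℕ), ∀ i ∈ T r L, i < 4
  | 0, _, i, hi => by simp [T] at hi
  | L + 1, r, i, hi => by
    simp only [T, List.mem_cons] at hi
    rcases hi with rfl | hi
    · omega
    · exact T_lt L _ i hi

lemma R_mem {L r a : ℕ} (h : a ∈ R r L) : 4 ≤ a ∧ a < 8 := by
  obtain ⟨i, hi, rfl⟩ := List.mem_map.1 h
  have := T_lt L r i hi
  omega

lemma T_length : ∀ (L r : ℕ), (T r L).length = L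
  | 0, _ => rfl
  | L + 1, r => by simp [T, T_length L]

lemma T_add : ∀ (L1 L2 r : ℕ), T r (L1 + L2) = T r L1 ++ T (r + L1) L2
  | 0, L2, r => by simp [T]
  | L1 + 1, L2, r => by
    rw [show L1 + 1 + L2 = (L1 + L2) + 1 by ring, T, T, T_add L1 L2 (r + 1),
      show r + 1 + L1 = r + (L1 + 1) by ring]
    rfl

lemma T_shift : ∀ (L r t : ℕ), T (r + 4 * t) L = T r L
  | 0, _, _ => rfl
  | L + 1, r, t => by
    rw [T, T, show r + 4 * t + 1 = r + 1 + 4 * t by ring, T_shift L (r + 1) t]
    congr 1; omega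

lemma R_add (a b r : ℕ) : R r (4 * a + b) = R r (4 * a) ++ R r b := by
  simp only [R]; rw [T_add, T_shift, List.map_append]

lemma R_pw (r q : ℕ) : R r (4 * q) = Pw (R r 4) q := by
  induction q with
  | zero => rfl
  | succ q ih => rw [Pw_succ, ← ih, show 4 * (q + 1) = 4 * 1 + 4 * q by ring, R_add]

lemma T_count (N i : ℕ) : (T 0 (4 * N)).count i = if i < 4 then N else 0 := by
  induction N with
  | zero => simp [T]
  | succ N ih =>
    rw [show 4 * (N + 1) = 4 * 1 + 4 * N by ring, T_add, T_shift, List.count_append, ih]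
    simp only [T, List.count_cons, List.count_nil, beq_iff_eq]
    split_ifs <;> omega

def A (N : ℕ) : List ℕ :=
  List.replicate N 0 ++ List.replicate N 1 ++ List.replicate N 2 ++ List.replicate N 3

lemma A_count (N i : ℕ) : (A N).count i = if i < 4 then N else 0 := by
  simp only [A, List.count_append, List.count_replicate, beq_iff_eq]
  split_ifs <;> omega

lemma A_lt {N a : ℕ} (h : a ∈ A N) : a < 4 := by
  simp only [A, List.mem_append, List.mem_replicate] at h
  omega

def Y (k : ℕ) : ℕ → List ℕ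
  | 0 => []
  | m + 1 => [8] ++ R 0 k ++ [9] ++ Y k m

lemma Y_ge (k : ℕ) : ∀ m, ∀ a ∈ Y k m, 4 ≤ a
  | 0, a, h => by simp [Y] at h
  | m + 1, a, h => by
    simp only [Y, List.mem_append, List.mem_singleton] at h
    rcases h with ((h | h) | h) | h
    · omega
    · exact (R_mem h).1
    · omega
    · exact Y_ge k m a h

lemma Y_mem (j : ℕ) : ∀ (m : ℕ) (x : List ℕ), x ++ R 0 (4 * (j * m)) ∈ (Gk (4 * j)).lang →
    x ++ Y (4 * j) m ∈ (Gk (4 * j)).lang
  | 0, x, h => by simpa [Y, R, T] using h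
  | m + 1, x, h => by
    rw [show 4 * (j * (m + 1)) = 4 * j + 4 * (j * m) by ring, R_add, ← List.append_assoc] at h
    have h1 := L_lock (4 * j) x (R 0 (4 * j)) _ (fun a ha => (R_mem ha).2)
      (by simp [R, T_length]) h
    have h2 := Y_mem j m _ h1
    simpa [Y] using h2

lemma w_mem (j m : ℕ) : A (j * m) ++ Y (4 * j) m ∈ (Gk (4 * j)).lang := by
  apply Y_mem
  have h0 : ([] : List ℕ) ++ [] ∈ (Gk (4 * j)).lang := ⟨[], by simp [Gk], .refl⟩
  have := L_ins (4 * j) [] [] h0 (T 0 (4 * (j * m))) (A (j * m))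
    (List.perm_iff_count.2 (fun i => by rw [A_count, T_count])) (T_lt _ _)
  simpa [R] using this

def good (k : ℕ) : Option ℕ → ℕ → Prop
  | none, x => x < 4 ∨ x = 8
  | some r, x => (x = 4 + r % 4 ∧ r < k) ∨ (x = 9 ∧ r = k)

def stp : Option ℕ → ℕ → Option ℕ
  | none, x => if x = 8 then some 0 else none
  | some r, x => if x = 9 then none else some (r + 1)

def ok (k : ℕ) : Option ℕ → List ℕ → Prop
  | _, [] => True
  | s, x :: z => good k s x ∧ ok k (stp s x) z

def nxt (s : Option ℕ) (y : List ℕ) : Option ℕ := y.foldl stp s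

lemma nxt_cons (s : Option ℕ) (x : ℕ) (y : List ℕ) : nxt s (x :: y) = nxt (stp s x) y := rfl

lemma ok_append (k : ℕ) (y z : List ℕ) : ∀ s, ok k s (y ++ z) ↔ ok k s y ∧ ok k (nxt s y) z := by
  induction y with
  | nil => intro s; simp [ok, nxt]
  | cons x y ih => intro s; simp only [List.cons_append, ok, ih, nxt_cons, and_assoc]

lemma nxt_append (s : Option ℕ) (y z : List ℕ) : nxt s (y ++ z) = nxt (nxt s y) z := by
  simp [nxt]

def ht : Option ℕ → ℤ
  | none => 0
  | some _ => 1

def ph : Option ℕ → ℕ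
  | none => 0
  | some r => r

def nb (y : List ℕ) : ℕ := y.count 4 + y.count 5 + y.count 6 + y.count 7

lemma nb_cons (x : ℕ) (y : List ℕ) : nb (x :: y) = nb y + if 4 ≤ x ∧ x < 8 then 1 else 0 := by
  simp only [nb, List.count_cons, beq_iff_eq]
  split_ifs <;> omega

lemma ok_W (k : ℕ) (y : List ℕ) : ∀ s, ok k s y →
    W (ht s) y = nb y ∧ ht (nxt s y) = ht s + H y ∧ ph (nxt s y) ≤ ph s + nb y ∧
      (∀ a ∈ y, a < 10) := by
  induction y with
  | nil => intro s _; simp [W, nb, nxt, H]
  | cons x y ih =>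
    intro s ⟨h1, h2⟩
    obtain ⟨i1, i2, i3, i4⟩ := ih _ h2
    have e : ht (stp s x) = ht s + eta x ∧ ph (stp s x) ≤ ph s + (if 4 ≤ x ∧ x < 8 then 1 else 0)
        ∧ (if 1 ≤ ht s then mu x else 0) = ((if 4 ≤ x ∧ x < 8 then 1 else 0 : ℕ) : ℤ)
        ∧ x < 10 := by
      cases s with
      | none =>
        rcases h1 with h1 | rfl
        · have a1 : x ≠ 8 := by omega
          have a2 : x ≠ 9 := by omega
          have a3 : ¬ 4 ≤ x := by omega
          simp [stp, ht, ph, eta, a1, a2, a3]; omega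
        · simp [stp, ht, ph, eta]
      | some r =>
        rcases h1 with ⟨h1, _⟩ | ⟨rfl, _⟩
        · have a1 : x ≠ 8 := by omega
          have a2 : x ≠ 9 := by omega
          have a3 : 4 ≤ x := by omega
          have a4 : x < 8 := by omega
          have a5 : ¬ x < 4 := by omega
          simp [stp, ht, ph, eta, mu, a1, a2, a3, a4, a5]; omega
        · simp [stp, ht, ph, eta, mu]
    obtain ⟨e1, e2, e3, e4⟩ := e
    refine ⟨?_, ?_, ?_, ?_⟩
    · rw [W, e3, ← e1, i1, nb_cons]; push_cast; ring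
    · rw [nxt_cons, i2, e1, H_cons]; ring
    · rw [nxt_cons, nb_cons]; omega
    · intro a ha
      rcases List.mem_cons.1 ha with rfl | ha
      · exact e4
      · exact i4 a ha

lemma ok_nb (j i : ℕ) (hi : i < 4) (y : List ℕ) : ∀ s, ok (4 * j) s y → 4 + i ∉ y →
    nb y ≤ (i + 4 - ph s % 4) % 4 := by
  induction y with
  | nil => intro s _ _; simp [nb]
  | cons x y ih =>
    intro s ⟨h1, h2⟩ hn
    have i1 := ih _ h2 (fun h => hn (List.mem_cons_of_mem _ h))
    have hx : x ≠ 4 + i := fun h => hn (by simp [h])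
    rw [nb_cons]
    cases s with
    | none =>
      rcases h1 with h1 | rfl
      · have a1 : x ≠ 8 := by omega
        simp only [stp, a1, if_false, ph] at i1 ⊢
        split_ifs <;> omega
      · simpa [stp, ph] using i1
    | some r =>
      rcases h1 with ⟨h1, _⟩ | ⟨rfl, h1⟩
      · have a2 : x ≠ 9 := by omega
        simp only [stp, a2, if_false, ph] at i1 ⊢
        split_ifs <;> omega
      · simp only [stp, if_true, ph] at i1 ⊢
        split_ifs <;> omega

lemma ok_close (k : ℕ) (y : List ℕ) : ∀ r, ok k (some r) y → nxt (some r) y = none →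
    k ≤ r + nb y := by
  induction y with
  | nil => intro r _ h; simp [nxt] at h
  | cons x y ih =>
    intro r ⟨h1, h2⟩ hn
    rw [nb_cons]
    rcases h1 with ⟨h1, _⟩ | ⟨rfl, h1⟩
    · have a2 : x ≠ 9 := by omega
      rw [nxt_cons] at hn
      simp only [stp, a2, if_false] at h2 hn
      have := ih _ h2 hn
      split_ifs <;> omega
    · omega

lemma ok_run (k r' : ℕ) : ∀ (L r : ℕ) (x : List ℕ), ok k (some r) x → nxt (some r) x = some r' →
    r + L ≤ r' → r + L ≤ k → ∃ z, x = R r L ++ z
  | 0, r, x, _, _, _, _ => ⟨x, rfl⟩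
  | L + 1, r, [], _, h, h1, _ => by simp [nxt] at h; omega
  | L + 1, r, a :: x, ⟨g, h0⟩, h, h1, h2 => by
    rcases g with ⟨g, _⟩ | ⟨_, g⟩
    · have a2 : a ≠ 9 := by omega
      rw [nxt_cons] at h
      simp only [stp, a2, if_false] at h0 h
      obtain ⟨z, hz⟩ := ok_run k r' L (r + 1) x h0 h (by omega) (by omega)
      exact ⟨z, by simp [R, T, g, hz]⟩
    · omega

lemma ok_R (k : ℕ) : ∀ (L r : ℕ), r + L ≤ k →
    ok k (some r) (R r L) ∧ nxt (some r) (R r L) = some (r + L)
  | 0, r, _ => ⟨trivial, rfl⟩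
  | L + 1, r, h => by
    have := ok_R k L (r + 1) (by omega)
    have a2 : 4 + r % 4 ≠ 9 := by omega
    have e : R r (L + 1) = (4 + r % 4) :: R (r + 1) L := rfl
    rw [e, ok, nxt_cons]
    simp only [stp, a2, if_false]
    exact ⟨⟨Or.inl ⟨rfl, by omega⟩, this.1⟩, by rw [this.2]; congr 1; ring⟩

lemma ok_small (k : ℕ) (x : List ℕ) (h : ∀ a ∈ x, a < 4) : ok k none x ∧ nxt none x = none := by
  induction x with
  | nil => exact ⟨trivial, rfl⟩
  | cons a x ih =>
    have := ih (fun b hb => h b (List.mem_cons_of_mem _ hb))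
    have ha := h a (by simp)
    have a2 : a ≠ 8 := by omega
    rw [ok, nxt_cons]
    simp only [stp, a2, if_false]
    exact ⟨⟨Or.inl ha, this.1⟩, this.2⟩

lemma nb_append (y z : List ℕ) : nb (y ++ z) = nb y + nb z := by
  simp only [nb, List.count_append]; ring

lemma nb_R : ∀ (L r : ℕ), nb (R r L) = L
  | 0, _ => rfl
  | L + 1, r => by
    have e : R r (L + 1) = (4 + r % 4) :: R (r + 1) L := rfl
    rw [e, nb_cons, nb_R L]
    split_ifs <;> omega

lemma ok_Y (k : ℕ) : ∀ m, ok k none (Y k m) ∧ nb (Y k m) = k * m ∧ (Y k m).count 8 = m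
  | 0 => ⟨trivial, rfl, rfl⟩
  | m + 1 => by
    obtain ⟨h1, h2, h3⟩ := ok_Y k m
    obtain ⟨r1, r2⟩ := ok_R k k 0 (by omega)
    have e8 : nxt none [8] = some 0 := rfl
    refine ⟨?_, ?_, ?_⟩
    · simp only [Y, ok_append, nxt_append, e8, r1, r2, zero_add]
      have e9 : nxt (some k) [9] = none := by simp [nxt, stp]
      rw [e9]
      simp [ok, good, h1]
    · simp only [Y, nb_append, nb_R, h2]
      simp [nb]; ring
    · have := small_count (x := R 0 k) (fun a ha => (R_mem ha).2)
      simp only [Y, List.count_append, h3, this]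
      simp; ring

lemma w_sorted (N k m : ℕ) :
    (A N ++ Y k m).Pairwise (fun x y => min x 4 ≤ min y 4) := by
  rw [List.pairwise_append]
  refine ⟨?_, ?_, ?_⟩
  · simp only [A, List.pairwise_append, List.pairwise_replicate, List.mem_append,
      List.mem_replicate]
    refine ⟨⟨⟨by simp, by simp, ?_⟩, by simp, ?_⟩, by simp, ?_⟩ <;> intro a ha b hb <;> omega
  · apply List.pairwise_of_forall_mem_list
    intro a ha b hb
    have := Y_ge k m a ha
    have := Y_ge k m b hb
    omega
  · intro a ha b hb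
    have := A_lt ha
    have := Y_ge k m b hb
    omega

lemma window {w p u q : List ℕ} {N i x y : ℕ} (hw : w = p ++ u ++ q)
    (hs : w.Pairwise (fun x y => min x 4 ≤ min y 4)) (hc : w.count i = N) (hu : u.length < N)
    (hi : i < 4) (hx : x ∈ u) (hy : y ∈ u) (h1 : x < i) (h2 : i < y) : False := by
  subst hw
  simp only [List.pairwise_append, List.mem_append] at hs
  obtain ⟨⟨_, _, s1⟩, _, s2⟩ := hs
  have c1 : p.count i = 0 := List.count_eq_zero.2 (fun h => by have := s1 i h x hx; omega)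
  have c2 : q.count i = 0 :=
    List.count_eq_zero.2 (fun h => by have := s2 y (Or.inr hy) i h; omega)
  have c3 : u.count i ≤ u.length := List.count_le_length
  simp only [List.count_append] at hc
  omega

lemma bound (G : ICG) : ∃ M, (∀ x ∈ G.ax, x.length < M) ∧
    ∀ p ∈ G.pairs, ∀ c ∈ p.2, c.1.length < M ∧ c.2.length < M := by
  have h1 : ∀ l : List (Set (List ℕ) × Finset (List ℕ × List ℕ)), ∃ M, ∀ p ∈ l, ∀ c ∈ p.2,
      c.1.length + c.2.length ≤ M := by
    intro l
    induction l with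
    | nil => exact ⟨0, by simp⟩
    | cons p l ih =>
      obtain ⟨M, hM⟩ := ih
      refine ⟨M + p.2.sup (fun c => c.1.length + c.2.length), ?_⟩
      intro q hq c hc
      rcases List.mem_cons.1 hq with rfl | hq
      · have := Finset.le_sup (f := fun c : List ℕ × List ℕ => c.1.length + c.2.length) hc
        omega
      · have := hM q hq c hc
        omega
  obtain ⟨M, hM⟩ := h1 G.pairs
  refine ⟨M + G.ax.sup List.length + 1, fun x hx => ?_, fun p hp c hc => ?_⟩
  · have := Finset.le_sup (f := List.length) hx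
    omega
  · have := hM p hp c hc
    omega

lemma ht_cases (s : Option ℕ) : (s = none ∧ ht s = 0) ∨ (∃ r, s = some r ∧ ht s = 1) := by
  cases s with
  | none => exact Or.inl ⟨rfl, rfl⟩
  | some r => exact Or.inr ⟨r, rfl, rfl⟩

theorem result (n : ℕ) : ∃ L : Set (List ℕ), L ∈ IC Suf ∧ L ∉ IC (RegZ n) := by
  refine ⟨(Gk (4 * (n + 2))).lang, ⟨Gk _, ?_, rfl⟩, ?_⟩
  · intro p hp
    simp only [Gk, List.mem_cons, List.not_mem_nil, or_false] at hp
    rcases hp with rfl | rfl
    · exact suf1
    · exact suf2 _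
  rintro ⟨G, hG, hL⟩
  obtain ⟨m, hM1, hM2⟩ := bound G
  set k := 4 * (n + 2) with hk
  set N := (n + 2) * m with hN
  have hmN : m ≤ N := Nat.le_mul_of_pos_left _ (by omega)
  have hw := w_mem (n + 2) m
  rw [← hk, ← hN] at hw
  have hcnt : ∀ i < 4, (A N ++ Y k m).count i = N := by
    intro i hi
    have : (Y k m).count i = 0 :=
      List.count_eq_zero.2 (fun h => by have := Y_ge k m i h; omega)
    rw [List.count_append, A_count, this]; simp [hi]
  have hnot : A N ++ Y k m ∉ G.ax := by
    intro h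
    have h1 := hM1 _ h
    have h2 := hcnt 0 (by omega)
    have h3 : (A N ++ Y k m).count 0 ≤ (A N ++ Y k m).length := List.count_le_length
    omega
  have hsort := w_sorted N k m
  obtain ⟨y1, y2, y3⟩ := ok_Y k m
  obtain ⟨a1, a2⟩ := ok_small k (A N) (fun a ha => A_lt ha)
  have hok : ok k none (A N ++ Y k m) := by rw [ok_append, a2]; exact ⟨a1, y1⟩
  have hnb : nb (A N ++ Y k m) = k * m := by
    rw [nb_append, y2]; simp [nb, A_count]
  have hc8 : (A N ++ Y k m).count 8 = m := by
    rw [List.count_append, y3]; simp [A_count]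
  have hinvw := L_inv k hw
  rw [hL] at hw
  obtain ⟨p, hp, c, hc, x1, x2, x3, h2, hrem, he, hne⟩ := last_step G hw hnot
  have App := closure G hp hc
  have hreg := hG p hp
  obtain ⟨hu, hv⟩ := hM2 p hp c hc
  rw [← hL] at App hrem
  obtain ⟨u, v⟩ := c
  simp only at App he hne hu hv
  generalize A N ++ Y k m = w at *
  have hinvr := L_inv k hrem
  have wu := fun i x y => @window w x1 u (x2 ++ v ++ x3) N i x y (by simp [he]) hsort
  have wv := fun i x y => @window w (x1 ++ u ++ x2) v x3 N i x y he hsort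
  subst he
  simp only [ok_append, nxt_append] at hok
  obtain ⟨⟨⟨⟨o1, o2⟩, o3⟩, o4⟩, o5⟩ := hok
  obtain ⟨p1, q1, -, -⟩ := ok_W k _ _ o1
  obtain ⟨p2, q2, r2, t2⟩ := ok_W k _ _ o2
  obtain ⟨p3, q3, -, -⟩ := ok_W k _ _ o3
  obtain ⟨p4, q4, -, t4⟩ := ok_W k _ _ o4
  obtain ⟨p5, -, -, -⟩ := ok_W k _ _ o5
  obtain ⟨b1, b2, -⟩ := hinvw
  obtain ⟨d1, d2, d3⟩ := hinvr
  have bal : ∀ i < 4, u.count i + v.count i = u.count (4 + i) + v.count (4 + i) := by
    intro i hi
    have := b1 i hi
    have := d1 i hi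
    simp only [List.count_append] at *
    omega
  have bal8 : u.count 8 + v.count 8 = u.count 9 + v.count 9 := by
    simp only [List.count_append] at b2 d2
    omega
  have hmiss : ∃ i < 4, 4 + i ∉ u ∧ 4 + i ∉ v := by
    by_contra hcon
    push Not at hcon
    have pos : ∀ i < 4, (4 + i ∈ u ∨ 4 + i ∈ v) ∧ (i ∈ u ∨ i ∈ v) := by
      intro i hi
      have h1 : 4 + i ∈ u ∨ 4 + i ∈ v := by
        by_cases h : 4 + i ∈ u
        · exact Or.inl h
        · exact Or.inr (hcon i hi h)
      refine ⟨h1, ?_⟩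
      have := bal i hi
      simp only [← List.count_pos_iff] at h1 ⊢
      omega
    have u1 := wu 1 0 2 (hcnt 1 (by omega)) (by omega) (by omega)
    have u2 := wu 1 0 4 (hcnt 1 (by omega)) (by omega) (by omega)
    have u3 := wu 3 2 4 (hcnt 3 (by omega)) (by omega) (by omega)
    have v1 := wv 1 0 2 (hcnt 1 (by omega)) (by omega) (by omega)
    have v2 := wv 1 0 4 (hcnt 1 (by omega)) (by omega) (by omega)
    have v3 := wv 3 2 4 (hcnt 3 (by omega)) (by omega) (by omega)
    obtain ⟨h4, h0⟩ := pos 0 (by omega)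
    obtain ⟨-, h2⟩ := pos 2 (by omega)
    simp only [add_zero] at h4
    rcases h4 with h4 | h4 <;> rcases h0 with h0 | h0 <;> rcases h2 with h2 | h2 <;>
      simp_all
  obtain ⟨i0, hi0, mu0, mv0⟩ := hmiss
  have nu : nb u ≤ 3 := by have := ok_nb (n + 2) i0 hi0 _ _ o2 mu0; omega
  have nv : nb v ≤ 3 := by have := ok_nb (n + 2) i0 hi0 _ _ o4 mv0; omega
  have huv : H u + H v = 0 := by simp only [H]; omega
  have hz : ht none = 0 := rfl
  simp only [nb_append, List.count_append] at hnb hc8
  have hnb' : (nb x1 : ℤ) + nb u + nb x2 + nb v + nb x3 = k * m := by exact_mod_cast hnb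
  have hkz : (k : ℤ) = 4 * (n + 2) := by exact_mod_cast hk
  have removal : W (0 + H x1) x2 ≥ nb x2 → 0 < u.count 8 + v.count 8 → False := by
    intro hge hpos
    have e5 : 0 + (H x1 + H x2) = ht (nxt (nxt (nxt (nxt none x1) u) x2) v) := by omega
    rw [hz] at p1
    simp only [W_append, H_append, List.count_append, e5, p5, p1] at d3
    have hle : ((x1.count 8 + x2.count 8 + x3.count 8 : ℕ) : ℤ) + 1 ≤ m := by omega
    have : (k : ℤ) * (((x1.count 8 + x2.count 8 + x3.count 8 : ℕ) : ℤ) + 1) ≤ k * m :=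
      mul_le_mul_of_nonneg_left hle (by omega)
    rw [mul_add] at this
    omega
  have hHu : H u = 0 ∨ H u = -1 ∨ H u = 1 := by
    rcases ht_cases (nxt none x1) with ⟨_, g1⟩ | ⟨_, _, g1⟩ <;>
      rcases ht_cases (nxt (nxt none x1) u) with ⟨_, g2⟩ | ⟨_, _, g2⟩ <;> omega
  rcases hHu with hHu | hHu | hHu
  · by_cases hpos : 0 < u.count 8 + v.count 8
    · refine removal ?_ hpos
      have : 0 + H x1 = ht (nxt (nxt none x1) u) := by omega
      rw [this, p3]
    · have hre := App (x1 ++ u) x2 (v ++ x3) h2 (by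
        have := App x1 x2 x3 h2 hrem
        simpa using this)
      obtain ⟨-, -, g⟩ := L_inv k hre
      have hHv : H v = 0 := by omega
      have e1 : 0 + H x1 = ht (nxt none x1) := by omega
      have e2 : 0 + (H x1 + H x2) = ht (nxt (nxt (nxt none x1) u) x2) := by omega
      have e3 : ht (nxt none x1) = ht (nxt (nxt none x1) u) := by omega
      have e4 : ht (nxt (nxt (nxt none x1) u) x2) =
        ht (nxt (nxt (nxt (nxt none x1) u) x2) v) := by omega
      rw [hz] at p1
      rw [← e3] at p3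
      rw [← e4] at p5
      simp only [W_append, H_append, List.count_append, hHu, hHv, add_zero, e1, e2, p1, p2, p3,
        p4, p5] at g
      have hcc : x1.count 8 + u.count 8 + u.count 8 + x2.count 8 + v.count 8 +
        (v.count 8 + x3.count 8) = m := by omega
      rw [hcc] at g
      have hz0 : nb u + nb v = 0 := by omega
      obtain ⟨a, ha⟩ := List.exists_mem_of_ne_nil _ hne
      have ha10 : a < 10 := by
        rcases List.mem_append.1 ha with ha | ha
        · exact t2 a ha
        · exact t4 a ha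
      have hap : 0 < u.count a + v.count a := by
        rw [← List.count_append]; exact List.count_pos_iff.2 ha
      have z0 := bal 0 (by omega)
      have z1 := bal 1 (by omega)
      have z2 := bal 2 (by omega)
      have z3 := bal 3 (by omega)
      simp only [nb] at hz0
      norm_num at z0 z1 z2 z3
      interval_cases a <;> omega
  · have h9 : 9 ∈ u := by
      rw [← List.count_pos_iff]; simp only [H] at hHu; omega
    have hge : ∀ a ∈ x2, 4 ≤ a := by
      intro a ha
      simp only [List.pairwise_append, List.mem_append] at hsort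
      have := hsort.1.1.2.2 9 (Or.inr h9) a ha
      omega
    refine removal ?_ (by simp only [H] at huv hHu; omega)
    have : 0 + H x1 = ht (nxt (nxt none x1) u) + 1 := by omega
    rw [this, ← p3]
    exact W_mono hge _
  · rcases ht_cases (nxt none x1) with ⟨s1, g1⟩ | ⟨_, _, g1⟩
    swap
    · rcases ht_cases (nxt (nxt none x1) u) with ⟨_, g2⟩ | ⟨_, _, g2⟩ <;> omega
    rcases ht_cases (nxt (nxt none x1) u) with ⟨_, g2⟩ | ⟨r, s2, g2⟩
    · omega
    rcases ht_cases (nxt (nxt (nxt (nxt none x1) u) x2) v) with ⟨s4, g4⟩ | ⟨_, _, g4⟩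
    swap
    · rcases ht_cases (nxt (nxt (nxt none x1) u) x2) with ⟨_, g2⟩ | ⟨_, _, g2⟩ <;> omega
    rcases ht_cases (nxt (nxt (nxt none x1) u) x2) with ⟨_, g3⟩ | ⟨r', s3, g3⟩
    · omega
    have hr : r ≤ 3 := by
      rw [s2, s1] at r2
      simp only [ph] at r2
      omega
    have hr' : k ≤ r' + nb v := by
      rw [s3] at o4 s4
      exact ok_close k v r' o4 s4
    obtain ⟨z, hz2⟩ : ∃ z, x2 = R r (4 * n) ++ z := by
      rw [s2] at o3 s3
      exact ok_run k r' (4 * n) r x2 o3 s3 (by omega) (by omega)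
    obtain ⟨t, ht0, hpump⟩ := pump hreg (R r 4) z (by rw [← R_pw, ← hz2]; exact h2)
    have hx2 : Pw (R r 4) (n + t) ++ z = R r (4 * t) ++ x2 := by
      rw [← R_pw, hz2, show 4 * (n + t) = 4 * t + 4 * n by ring, R_add, List.append_assoc]
    rw [hx2] at hpump
    have hins := L_ins k x1 (x2 ++ x3) (by simpa using hrem) (T r (4 * t)) _ (List.Perm.refl _)
      (T_lt _ _)
    have hfin := App (x1 ++ T r (4 * t)) _ x3 hpump (by simpa [R] using hins)
    obtain ⟨-, -, g⟩ := L_inv k hfin
    have sT : ∀ a ∈ T r (4 * t), a < 8 := fun a ha => by have := T_lt _ _ a ha; omega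
    have sR : ∀ a ∈ R r (4 * t), a < 8 := fun a ha => (R_mem ha).2
    obtain ⟨wR, -⟩ := ok_W (r + 4 * t) _ _ (ok_R (r + 4 * t) (4 * t) r le_rfl).1
    rw [nb_R] at wR
    have e0 : H x1 = 0 := by omega
    have eH2 : H x2 = 0 := by omega
    have eHv : H v = -1 := by omega
    have h1' : ht (some r) = 1 := rfl
    rw [hz] at p1
    rw [g1] at p2
    rw [g2] at p3
    rw [g3] at p4
    rw [g4] at p5
    rw [h1'] at wR
    simp only [W_append, H_append, List.count_append, H_small sT, H_small sR, small_count sT,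
      small_count sR, e0, hHu, eH2, eHv, add_zero, zero_add, W_zero sT, p1, p2, p3, p4, wR,
      add_neg_cancel, p5] at g
    rw [hc8] at g
    push_cast at g
    omega

end Pool.Agent.Results.MP_47ab97_lc.Separate
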